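import Pool.Agent.HF.Stmts

/-!
# Squad HF, module PZD: the group ring of a poly-(infinite cyclic) group is a domain
-/

set_option autoImplicit false

namespace Pool.Agent.HF.H48

open Pool.Agent.HF Pool.Agent.FB Pool.Agent.CD

/-- Unique products are inherited by extensions by an infinite cyclic group. -/
theorem uniqueProds_step {P : Type} [Group P] (K : Subgroup P) (c : P → ℤ)
    (hc : ∀ x y, c (x * y) = c x + c y) (hK : ∀ x, x ∈ K ↔ c x = 0) [UniqueProds K] :
    UniqueProds P where
  uniqueMul_of_nonempty {A B} hA hB := by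
    classical
    have h1 : c 1 = 0 := by
      have h := hc 1 1
      rw [mul_one] at h
      omega
    have hinv : ∀ x, c x⁻¹ = - c x := by
      intro x
      have h := hc x x⁻¹
      rw [mul_inv_cancel, h1] at h
      omega
    obtain ⟨a1, ha1, hamax⟩ := Finset.exists_max_image A c hA
    obtain ⟨b1, hb1, hbmax⟩ := Finset.exists_max_image B c hB
    -- the translates of the upper parts
    let A' : Finset K := Finset.subtype (· ∈ K) ((A.filter fun a => c a = c a1).image
      fun a => a1⁻¹ * a)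
    let B' : Finset K := Finset.subtype (· ∈ K) ((B.filter fun b => c b = c b1).image
      fun b => b * b1⁻¹)
    have mA : ∀ k : K, k ∈ A' ↔ a1 * k.1 ∈ A := by
      intro k
      simp only [A', Finset.mem_subtype, Finset.mem_image, Finset.mem_filter]
      constructor
      · rintro ⟨a, ⟨h2, -⟩, h4⟩
        rw [← h4, mul_inv_cancel_left]
        exact h2
      · intro h2
        refine ⟨a1 * k.1, ⟨h2, ?_⟩, inv_mul_cancel_left _ _⟩
        rw [hc, (hK _).1 k.2, add_zero]
    have mB : ∀ k : K, k ∈ B' ↔ k.1 * b1 ∈ B := by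
      intro k
      simp only [B', Finset.mem_subtype, Finset.mem_image, Finset.mem_filter]
      constructor
      · rintro ⟨b, ⟨h2, -⟩, h4⟩
        rw [← h4, inv_mul_cancel_right]
        exact h2
      · intro h2
        refine ⟨k.1 * b1, ⟨h2, ?_⟩, mul_inv_cancel_right _ _⟩
        rw [hc, (hK _).1 k.2, zero_add]
    have nA : A'.Nonempty := ⟨1, by rw [mA]; simpa using ha1⟩
    have nB : B'.Nonempty := ⟨1, by rw [mB]; simpa using hb1⟩
    obtain ⟨x, hx, y, hy, hu⟩ := UniqueProds.uniqueMul_of_nonempty nA nB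
    refine ⟨a1 * x.1, (mA x).1 hx, y.1 * b1, (mB y).1 hy, ?_⟩
    intro a b ha hb hab
    have e1 : c a + c b = c a1 + c b1 := by
      have h2 := congrArg c hab
      rw [hc, hc, hc, hc, (hK _).1 x.2, (hK _).1 y.2] at h2
      omega
    have e2 := hamax a ha
    have e3 := hbmax b hb
    have k1 : a1⁻¹ * a ∈ K := by
      rw [hK, hc, hinv]
      omega
    have k2 : b * b1⁻¹ ∈ K := by
      rw [hK, hc, hinv]
      omega
    have h3 : (⟨a1⁻¹ * a, k1⟩ : K) ∈ A' := by
      rw [mA]
      simpa using ha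
    have h4 : (⟨b * b1⁻¹, k2⟩ : K) ∈ B' := by
      rw [mB]
      simpa using hb
    have h5 : (⟨a1⁻¹ * a, k1⟩ : K) * ⟨b * b1⁻¹, k2⟩ = x * y := by
      apply Subtype.ext
      show a1⁻¹ * a * (b * b1⁻¹) = x.1 * y.1
      have h6 : a1⁻¹ * a * (b * b1⁻¹) = a1⁻¹ * (a * b) * b1⁻¹ := by group
      rw [h6, hab]
      group
    obtain ⟨h7, h8⟩ := hu h3 h4 h5
    have h9 : a1⁻¹ * a = x.1 := congrArg Subtype.val h7
    have h10 : b * b1⁻¹ = y.1 := congrArg Subtype.val h8
    exact ⟨by rw [← h9, mul_inv_cancel_left], by rw [← h10, inv_mul_cancel_right]⟩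

theorem uniqueProds (hPzi : PziStmt) (P : Type) [i : Group P] (hP : IsPZ P) : UniqueProds P := by
  refine hPzi (fun P i => @UniqueProds P (@DivInvMonoid.toMonoid P i.toDivInvMonoid).toMul)
    ?_ ?_ P i hP
  · intro P i hs
    refine @UniqueProds.mk P _ ?_
    intro A B hA hB
    obtain ⟨a, ha⟩ := hA
    obtain ⟨b, hb⟩ := hB
    exact ⟨a, ha, b, hb, fun x y _ _ _ => ⟨Subsingleton.elim _ _, Subsingleton.elim _ _⟩⟩
  · intro P i K c t hc hK _ _ hQ
    exact @uniqueProds_step P i K c hc hK hQ

theorem pzd (hPzi : PziStmt) : PzdStmt := by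
  intro P _ hP a b hab
  have := uniqueProds hPzi P hP
  exact mul_eq_zero.1 hab

end Pool.Agent.HF.H48
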