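import Pool.Agent.HF.Stmts

/-!
# Squad HF, module PZI: the induction principle for poly-(infinite cyclic) groups
-/

set_option autoImplicit false

namespace Pool.Agent.HF.H48

open Pool.Agent.HF

/-- A nonzero additive function on a group is a multiple of a surjective one. -/
theorem normalise {P : Type} [Group P] (c : P → ℤ) (hc : ∀ x y, c (x * y) = c x + c y)
    (hne : ∃ x, c x ≠ 0) : ∃ (c' : P → ℤ) (t : P), (∀ x y, c' (x * y) = c' x + c' y) ∧
      (∀ x, c' x = 0 ↔ c x = 0) ∧ c' t = 1 := by
  classical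
  have h1 : c 1 = 0 := by
    have h := hc 1 1
    rw [mul_one] at h
    omega
  have hinv : ∀ x, c x⁻¹ = - c x := by
    intro x
    have h := hc x x⁻¹
    rw [mul_inv_cancel, h1] at h
    omega
  have hpow : ∀ (n : ℕ) x, c (x ^ n) = n * c x := by
    intro n x
    induction n with
    | zero => rw [pow_zero, h1]; simp
    | succ n ih => rw [pow_succ, hc, ih]; push_cast; ring
  have hzpow : ∀ (n : ℤ) x, c (x ^ n) = n * c x := by
    intro n x
    cases n with
    | ofNat n => rw [Int.ofNat_eq_natCast, zpow_natCast, hpow]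
    | negSucc n =>
      rw [zpow_negSucc, hinv, hpow, Int.negSucc_eq]
      push_cast
      ring
  have hex : ∃ n : ℕ, 0 < n ∧ ∃ x, c x = n := by
    obtain ⟨x, hx⟩ := hne
    rcases lt_or_gt_of_ne hx with h | h
    · refine ⟨(-(c x)).toNat, by omega, x⁻¹, ?_⟩
      rw [hinv]
      omega
    · exact ⟨(c x).toNat, by omega, x, by omega⟩
  obtain ⟨hd, t, ht⟩ := Nat.find_spec hex
  set d := Nat.find hex with hdd
  have hdvd : ∀ x, (d : ℤ) ∣ c x := by
    intro x
    have h2 : c (x * t ^ (-(c x / d))) = c x % d := by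
      rw [hc, hzpow, ht]
      have := Int.emod_add_mul_ediv (c x) d
      linarith [mul_comm (d : ℤ) (c x / d)]
    have h3 : 0 ≤ c x % d := Int.emod_nonneg _ (by omega)
    have h4 : c x % d < d := Int.emod_lt_of_pos _ (by omega)
    by_contra hcon
    have h5 : c x % d ≠ 0 := fun h => hcon (Int.dvd_of_emod_eq_zero h)
    have h6 := Nat.find_min hex (m := (c x % d).toNat) (by omega)
    apply h6
    refine ⟨by omega, x * t ^ (-(c x / d)), ?_⟩
    rw [h2]
    omega
  have hdz : (d : ℤ) ≠ 0 := by omega
  refine ⟨fun x => c x / d, t, ?_, ?_, ?_⟩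
  · intro x y
    show c (x * y) / d = c x / d + c y / d
    rw [hc, Int.add_ediv_of_dvd_left (hdvd x)]
  · intro x
    constructor
    · intro h
      obtain ⟨q, hq⟩ := hdvd x
      have h7 : c x / d = q := by
        rw [hq]
        exact Int.mul_ediv_cancel_left _ hdz
      have h8 : q = 0 := by rw [← h7]; exact h
      rw [hq, h8, mul_zero]
    · intro h
      show c x / d = 0
      rw [h, Int.zero_ediv]
  · show c t / d = 1
    rw [ht]
    exact Int.ediv_self hdz

/-- The series of a term of the series. -/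
def restr {P : Type} [Group P] (z : PZ P) (m : ℕ) : PZ (z.N m) where
  m := m
  N i := (z.N i).subgroupOf (z.N m)
  bot := by
    rw [z.bot]
    exact Subgroup.bot_subgroupOf _
  top := Subgroup.subgroupOf_self _
  mono i := by
    intro x hx
    rw [Subgroup.mem_subgroupOf] at hx ⊢
    exact z.mono i hx
  c i x := z.c i x.1
  c_mul i x hx y hy := by
    rw [Subgroup.mem_subgroupOf] at hx hy
    exact z.c_mul i x.1 hx y.1 hy
  c_ker i x hx := by
    rw [Subgroup.mem_subgroupOf] at hx ⊢
    exact z.c_ker i x.1 hx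

theorem key (Q : (P : Type) → Group P → Prop)
    (h0 : ∀ (P : Type) (i : Group P), Subsingleton P → Q P i)
    (h1 : ∀ (P : Type) (i : Group P) (K : Subgroup P) (c : P → ℤ) (t : P),
      (∀ x y, c (x * y) = c x + c y) → (∀ x, x ∈ K ↔ c x = 0) → c t = 1 →
      IsPZ K → Q K inferInstance → Q P i) (m : ℕ) :
    ∀ (P : Type) (i : Group P) (z : @PZ P i), z.m = m → Q P i := by
  induction m with
  | zero =>
    intro P i z hz
    apply h0
    have h2 : (⊥ : Subgroup P) = ⊤ := by
      rw [← z.bot, ← z.top, hz]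
    exact Subgroup.subsingleton_iff.1 (subsingleton_of_bot_eq_top h2)
  | succ m ih =>
    intro P i z hz
    have htop : z.N (m + 1) = ⊤ := by
      rw [← hz]
      exact z.top
    have hmul : ∀ x y, z.c m (x * y) = z.c m x + z.c m y := fun x y =>
      z.c_mul m x (by rw [htop]; trivial) y (by rw [htop]; trivial)
    have hker : ∀ x, z.c m x = 0 ↔ x ∈ z.N m := fun x => z.c_ker m x (by rw [htop]; trivial)
    by_cases hc : ∀ x, z.c m x = 0
    · refine ih P i { z with m := m, top := ?_ } rfl
      rw [eq_top_iff]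
      intro x _
      exact (hker x).1 (hc x)
    · push Not at hc
      obtain ⟨c', t, a1, a2, a3⟩ := normalise (z.c m) hmul hc
      exact h1 P i (z.N m) c' t a1 (fun x => by rw [a2, hker]) a3 ⟨restr z m⟩
        (ih (z.N m) inferInstance (restr z m) rfl)

theorem pzi : PziStmt := by
  intro Q h0 h1 P i hP
  obtain ⟨z⟩ := hP
  exact key Q h0 h1 z.m P i z rfl

end Pool.Agent.HF.H48
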